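import Pool.Agent.H247.SC.Hyp

/-!
# The local `C^r` closing lemma, in the strong topology, for motions along a mixing hyperbolic map over
# an arbitrary base

`V n = ℝⁿ`, `DiffM n N r = Diff^r(N)` (`Pool.Graph.R_seed8.H718R2.G0`). From
`Pool.Graph.R_seed8.W564.SC.Defs`: `NonWand f x`: `x` is a nonwandering point of `f`; `PerShadow g`:
periodic shadowing (for every `η > 0` there is `δ > 0` such that every periodic `δ`-pseudoorbit of `g` is
`η`-shadowed by a periodic point of `g`); `ChainMix g`: `g` is chain mixing. Anosov diffeomorphisms of
connected closed manifolds with dense periodic points, e.g. hyperbolic automorphisms of tori, and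
topologically mixing basic sets have both properties. `LocallyClosable n N r F z`
(`Pool.Agent.H247.SC.Stm`): for every neighbourhood `W` of `z`, every neighbourhood of `F` in `Diff^r(N)` with
the strong (Whitney) topology `strongTop n N r` contains some `G` for which `z` is periodic and which is
equal to `F` outside of `W` and `F⁻¹(W)`.

The manifold `N` and the metric space `X` are not assumed to be compact, and the homeomorphism `f` of
the base `X` is arbitrary. On every noncompact manifold of dimension `≥ 3` the closing lemma fails in the
strong topology for some `F` (library, `ClosingNoncompact`); the theorem shows that the product of such a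
diffeomorphism `f : M → M` with a mixing Anosov diffeomorphism of a closed manifold satisfies it, with
perturbations supported near one point.

Idea of the proof: let `x₁` be close to `x` with `f^m(x₁)` close to `x`. Let `S_i` be the time spent in the
fibres up to time `i`. There is a point `y₁` close to `y` of period `S_m` for `g` whose orbit is far from `y₁`
at all times except for a bounded number of times after `0` and before `S_m`; at these times the orbit of
`x₁` is far from `x₁`, if `x` is not periodic. Thus `(x₁, y₁)` returns much closer at time `m` than before,
and the closing criterion applies.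
-/

set_option autoImplicit false

open scoped Manifold ContDiff Topology

namespace Pool.Agent.Results.MP_1e8d1a_an.HyperbolicFibresNoncompact

open Pool.Agent.H718R2.G Pool.Agent.W564.SC Pool.Agent.H247.SC

/-- Let `N` be an arbitrary smooth manifold (compact or not), `1 ≤ r ≤ ∞` and `F ∈ Diff^r(N)`. Let `X` be a
metric space and `f : X → X` a homeomorphism, both arbitrary, let `g` be a homeomorphism with periodic
shadowing and chain mixing of a compact metric space `Y` with more than one point, and let
`τ : X → {1, 2, …}` be such that `F (Θ (x, y)) = Θ (f x, g^{τ(x)} y)` for some topological embedding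
`Θ : X × Y → N`. Then `F` satisfies the conclusion of the local `C^r` closing lemma in the strong
topology at `Θ (x, y)` for all nonwandering points `x` of `f` and all `y`. -/
theorem result {n : ℕ} {N : Type*} [TopologicalSpace N] [T2Space N]
    [ChartedSpace (V n) N] [IsManifold (𝓡 n) ∞ N] (r : ℕ∞) (hr : 1 ≤ r) (F : DiffM n N r)
    {X : Type*} {Y : Type*} [MetricSpace X] [MetricSpace Y] [CompactSpace Y] [Nontrivial Y]
    (f : X ≃ₜ X) (g : Y ≃ₜ Y) (hps : PerShadow g) (hcm : ChainMix g)
    (τ : X → ℕ) (hτ : ∀ x, 1 ≤ τ x) (Θ : X × Y → N) (hΘ : Topology.IsEmbedding Θ)
    (hF : ∀ x y, F (Θ (x, y)) = Θ (f x, g^[τ x] y)) (x : X) (y : Y) (hx : NonWand f x) :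
    LocallyClosable n N r F (Θ (x, y)) :=
  hyp_closing r hr F f g hps hcm τ hτ Θ hΘ hF x y hx

end Pool.Agent.Results.MP_1e8d1a_an.HyperbolicFibresNoncompact
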