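import Pool.Agent.H247.LC.AsmA
import Pool.Agent.H247.LC.StabA
import Pool.Agent.H247.LC.CompA
import Pool.Agent.H247.LC.Comb
import Pool.Agent.H247.UC.Core
import Pool.Agent.H247.UC.Est
import Pool.Agent.H247.UC.MU

/-!
# The localised `C^{1+α}` closing lemma fails on every manifold of dimension at least five

`V n = ℝⁿ`, `DiffM n M r = Diff^r(M)`, `strongTop n M r` is its strong (Whitney) `C^r` topology, which is
generated by the sets `strongNbhd D k f`, `k ≤ r`: `D` consists of charts `φ i` (locally finite domains),
`ψ i`, compact sets `K i` and numbers `ε i > 0`, and `g` belongs to `strongNbhd D k f` if `g` maps `K i` into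
the domain of `ψ i` and the derivatives of order `≤ k` of `g` and `f` in these charts differ by less than
`ε i` on `K i`. `IsRec f x`: `x` is recurrent (`m ↦ f^m x` is not a homeomorphism of `ℤ` onto its
image); `IsPer g y`: `y` is a periodic point of `g` (`Pool.Graph.R_seed8.H718R2.G0`).

Pugh's proof of the `C¹` closing lemma uses perturbations with support in a given (arbitrarily small)
neighbourhood of a finite piece `{F^j(x) : |j| ≤ l}` of the orbit of the recurrent point, where `l`
depends only on the wanted `C¹`-size of the perturbation. The theorem says that for such perturbations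
the exponent `1` is sharp, in a strong sense: perturbations of class `C^{1+α}` which are not small but
only bounded, by an arbitrary constant `C`, cannot create a periodic point near the piece of the orbit,
if their support is in a small neighbourhood `W` of the piece. Here `α > 0` is arbitrary, and so are
`C` and `l`; the diffeomorphism, the recurrent point and the chart do not depend on `C` and `l`.

Idea of the proof. The library contains a diffeomorphism `f` of `ℝ³` which has a recurrent point and
is such that no map `C^{1+α}`-close to `f` has a finite invariant set, and products of `f` with strong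
linear expansions of a fibre (they give counterexamples on noncompact manifolds). Here the product
`(p, w) ↦ (f p, b(p)⁻¹ w)` on `ℝ³ × ℝ^{k+2}` is realised near `x` as the return map of a diffeomorphism
`Ft` of `ℝ^{5+k}`, which carries points around an annulus; an isotopy from the identity to `f` and the
expansions take place on the way. The speed is tiny for far points `p`, with the effect that the
conjugate of `Ft` by an embedding of `ℝ^{5+k}` onto a ball extends smoothly by the identity; the time
of one revolution is an integer which is locally constant at all points `p` that a periodic orbit of a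
perturbation near `x` can use. Perturbations near `F^j(x)`, `|j| ≤ l`, are transported to `x`. With
`α / 2` in place of `α` this excludes `C^{1+α/2}`-small perturbations; finally, perturbations which are
bounded in class `C^{1+α}` and have tiny support are small in class `C^{1+α/2}`.
-/

set_option autoImplicit false

open scoped Manifold ContDiff Topology
open Set

namespace Pool.Agent.Results.MP_1e8d1a_an.LocalisedClosingFails

open Pool.Agent.H718R2.G (V DiffM StrongData strongNbhd strongTop IsRec IsPer)

section

variable {n : ℕ} {M : Type} [TopologicalSpace M] [ChartedSpace (V n) M]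

/-- A chart `φ` onto `ℝⁿ` and a compact set `K` in its domain. -/
structure ChartK (n : ℕ) (M : Type) [TopologicalSpace M] [ChartedSpace (V n) M] where
  φ : OpenPartialHomeomorph M (V n)
  mem : φ ∈ IsManifold.maximalAtlas (𝓡 n) ∞ M
  onto : φ.target = univ
  K : Set M
  compact : IsCompact K
  sub : K ⊆ φ.source

/-- The difference of `G` and `F` in the chart `φ`. -/
def dif (φ : OpenPartialHomeomorph M (V n)) (F G : M → M) (v : V n) : V n :=
  φ (G (φ.symm v)) - φ (F (φ.symm v))

/-- In the chart `φ`, the derivative of `G - F` is `α`-Hölder with constant `C`. -/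
def HolderBounded (α C : ℝ) (φ : OpenPartialHomeomorph M (V n)) (F G : M → M) : Prop :=
  ∀ v v' : V n, ‖fderiv ℝ (dif φ F G) v - fderiv ℝ (dif φ F G) v'‖ ≤ C * ‖v - v'‖ ^ α

/-- No diffeomorphism `G` of class `C¹` which equals `F` outside `W` and is such that in the chart `φ`
the derivative of `G - F` is `α`-Hölder with constant `C` has a periodic point in `W`. -/
def NoClosingA (α C : ℝ) (φ : OpenPartialHomeomorph M (V n)) (F : M → M) (W : Set M) : Prop :=
  ∀ G : DiffM n M 1, HolderBounded α C φ F G → (∀ y ∉ W, G y = F y) → ∀ y ∈ W, ¬ IsPer G y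

/-- The data given by the chart `c.φ` (in source and target), the compact set `c.K` and the number `C`:
`G ∈ strongNbhd (c.data C hC) 2 F` says that `G` maps `c.K` into the domain of `c.φ` and that in the
chart `c.φ` the derivatives of `G` and `F` of order `≤ 2` differ by less than `C` on `c.K`. -/
def ChartK.data (c : ChartK n M) (C : ℝ) (hC : 0 < C) : StrongData n M where
  ι := Unit
  φ := fun _ => c.φ
  ψ := fun _ => c.φ
  K := fun _ => c.K
  ε := fun _ => C
  φ_mem := fun _ => c.mem
  ψ_mem := fun _ => c.mem
  lf := locallyFinite_of_finite _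
  compact := fun _ => c.compact
  sub := fun _ => c.sub
  pos := fun _ => hC

/-- `strongNbhd D 2 F` is a neighbourhood of `F` in the strong `C^r` topology, and no `G` in it which
equals `F` outside `W` has a periodic point in `W`. -/
def NoClosingR (r : ℕ∞) (D : StrongData n M) (F : DiffM n M r) (W : Set M) : Prop :=
  IsOpen[strongTop n M r] (strongNbhd D 2 F) ∧ F ∈ strongNbhd D 2 F ∧
    ∀ G ∈ strongNbhd D 2 F, (∀ y ∉ W, G y = F y) → ∀ y ∈ W, ¬ IsPer G y

/-- The localised closing lemma fails for `F` at `x`, for bounded perturbations: for each `C` and `l`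
there is an open set `W ⊆ c.K`, which contains `F^j(x)` for all `|j| ≤ l`, such that perturbations with
support in `W` which are bounded by `C` in class `C^{1+α}`, or in class `C²` (and belong to `Diff^r(M)`
for some `2 ≤ r ≤ ∞`), in the chart `c.φ`, have no periodic points in `W`. -/
def LocalClosingFails (α : ℝ) (F : DiffM n M ⊤) (x : M) (c : ChartK n M) : Prop :=
  ∀ (C : ℝ) (hC : 0 < C) (l : ℕ), ∃ W : Set M, IsOpen W ∧ W ⊆ c.K ∧
    (∀ j : ℤ, |j| ≤ l → (F.toHomeomorph ^ j) x ∈ W) ∧ NoClosingA α C c.φ F W ∧
    ∀ (r : ℕ∞) (Fr : DiffM n M r), 2 ≤ r → (∀ y, Fr y = F y) → NoClosingR r (c.data C hC) Fr W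

end

/-- On every Hausdorff smooth manifold `M` of dimension `n = 5 + k ≥ 5`, compact or not, and near every
point `p` of `M`, the localised closing lemma fails in class `C^{1+α}`, `0 < α ≤ 1`, and in class `C^r`,
`2 ≤ r ≤ ∞`, for bounded perturbations: there are a smooth diffeomorphism `F` of `M`, equal to the
identity outside a compact subset `K` of the domain of a chart `φ` (`c = (φ, K)`) inside the given
neighbourhood `B` of `p`, and a recurrent point `x` of `F`, such that for each `C` and each `l` there is
an open set `W ⊆ K`, which contains `F^j(x)` for all `|j| ≤ l`, with the following property. No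
diffeomorphism `G` of class `C¹` which equals `F` outside `W` and is such that the derivative of `G - F`
in the chart `φ` is `α`-Hölder with constant `C` has a periodic point in `W`. Nor has, for
`2 ≤ r ≤ ∞`, any `G` which equals `F` outside `W` and belongs to the neighbourhood of `F` in the strong
`C^r` topology given by `φ`, `K` and the number `C` (this neighbourhood does not depend on `l`, and `C`
may be large). -/
theorem result (α : ℝ) (hα : 0 < α) (hα1 : α ≤ 1) (k : ℕ) (M : Type) [TopologicalSpace M]
    [T2Space M] [ChartedSpace (V (5 + k)) M] [IsManifold (𝓡 (5 + k)) ∞ M] (p : M) (B : Set M)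
    (hB : B ∈ 𝓝 p) :
    ∃ (F : DiffM (5 + k) M ⊤) (x : M) (c : ChartK (5 + k) M),
      c.φ.source ⊆ B ∧ (∀ y ∉ c.K, F y = y) ∧ IsRec F.toHomeomorph x ∧
      LocalClosingFails α F x c := by
  have h2 : 0 < α / 2 := by positivity
  have h3 : α / 2 ≤ 1 := by linarith
  obtain ⟨Fh, Ft, δ, g1, g2, g3, g4, g5, g6, g7, g8⟩ :=
    Pool.Agent.H247.LC.modelA h2 h3 (Pool.Agent.H247.LC.StabA.main (α / 2) h2 h3) k
  obtain ⟨F, x, φ, hφ, K, hK, hKφ, e1, e2, e3, e4, e5⟩ :=
    Pool.Agent.H247.UC.mu Pool.Agent.H247.UC.Est.est Pool.Agent.H247.UC.Core.core hα hα1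
      (Pool.Agent.H247.LC.CompA.main (α / 2) h2 h3) Pool.Agent.H247.LC.Comb.main k Fh Ft (1 / 200)
      δ g1 g2 g3 g4 g5 (by norm_num) g6 g7 g8 M p B hB
  refine ⟨F, x, ⟨φ, hφ, e1, K, hK, hKφ⟩, e2, e3, e4, fun C hC l => ?_⟩
  obtain ⟨W, a1, a2, a3, a4, a5⟩ := e5 C hC l
  refine ⟨W, a1, a2, a3, fun G hG hGW => a4 G hG hGW, fun r Fr hr hF => ?_⟩
  obtain ⟨b1, b2, b3⟩ := a5 r Fr hr hF
  exact ⟨b1, b2, fun G hG hGW => b3 G hG fun y hy => (hGW y hy).trans (hF y)⟩

end Pool.Agent.Results.MP_1e8d1a_an.LocalisedClosingFails
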