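import Pool.Agent.H247.SC.Stm

/-!
# The `C^r` closing lemma in the strong topology near a family of neutral circles

`V n = ℝⁿ`, `DiffM n N r = Diff^r(N)`, `strongTop n N r` is its strong (Whitney) `C^r` topology,
`IsRec F z`: `z` is recurrent, i.e. `m ↦ F^m z` is not a homeomorphism of `ℤ` onto its image, `IsPer G z`:
`z` is periodic for `G` (`Pool.Graph.R_seed8.H718R2.G0`). `NonWand F z`: `z` is a nonwandering point of
`F` (`Pool.Graph.R_seed8.W564.SC.Defs`). From `Pool.Agent.H247.SC`:

* `CircleOn n N O R a`: `O` is an open subset of `N`, `R` is a smooth action of the circle `ℝ/ℤ` on `O`
  and `a : O → S¹` is smooth with `a (R t y) = exp (2πit) a y` (so that `O ≅ a⁻¹(1) × S¹`);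
* `Horiz F O R a`: `F` maps `O` into `O`, commutes with `R` on `O`, and `a (F y) = a y` on `O`; in other
  words `F` is of the form `f × id` on `O ≅ a⁻¹(1) × S¹`, `f : a⁻¹(1) → a⁻¹(1)` being arbitrary;
* `ClosableIn n N r F z W`: every neighbourhood of `F` in `Diff^r(N)` with the strong topology contains some
  `G` for which `z` is periodic and which is equal to `F` outside of `W` and `F⁻¹(W)`.

The manifold `N` and the set `O` are arbitrary (no compactness, no second countability), and outside of
`O` the map `F` is arbitrary. The case `O = N = M × S¹`, `F = f × id` with an arbitrary diffeomorphism `f`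
of a noncompact manifold `M` is contained in it; on such `N` with `dim N ≥ 3` the closing lemma in the
strong topology fails for other `F` (library, `ClosingNoncompact`).

Idea of the proof: `F` is composed with the time-`χ` map of a field along the circles, where `χ` is an
invariant cut-off function with support near the circle `C` through `z` and the flow of the field on each
circle consists of elliptic Moebius maps whose period is the total time `S` which the orbit spends in
the support of `χ` up to a return. If `S` is large, the perturbation is small, the orbit is moved along the
circles, away from `z`, and comes back exactly at the end; so a perturbation near `z` closes it. If `S` is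
bounded for all available returns, then one of the few returns can be closed directly.
-/

set_option autoImplicit false

open scoped Manifold ContDiff Topology

namespace Pool.Agent.Results.MP_1e8d1a_an.NeutralCircle

open Pool.Agent.H718R2.G Pool.Agent.W564.SC Pool.Agent.H247.SC

/-- Let `N` be an arbitrary smooth manifold (compact or not), `1 ≤ r ≤ ∞`, `F ∈ Diff^r(N)`, and let
`O ⊆ N` be an open subset with a smooth circle action `R` and a smooth equivariant map `a : O → S¹` such
that `F` maps `O` into itself, commutes with the action and preserves `a` there (that is, `O ≅ D × S¹`, and
`F = f × id` on `O`). Let `z ∈ O` be nonwandering or recurrent for `F` and let `W` be an open set which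
contains the circle through `z`. Then every neighbourhood of `F` in `Diff^r(N)` with the strong
topology contains some `G` for which `z` is periodic and which equals `F` outside of `W` and `F⁻¹(W)`. -/
theorem result {n : ℕ} {N : Type*} [TopologicalSpace N] [T2Space N] [ChartedSpace (V n) N]
    [IsManifold (𝓡 n) ∞ N] (O : Set N) (R : ℝ → N → N) (a : N → ℂ) (h : CircleOn n N O R a)
    (r : ℕ∞) (hr : 1 ≤ r) (F : DiffM n N r) (hF : Horiz F O R a) (z : N) (hz : z ∈ O)
    (hzF : NonWand F z ∨ IsRec F.toHomeomorph z) (W : Set N) (hW : IsOpen W)
    (hzW : ∀ t, R t z ∈ W) : ClosableIn n N r F z W := by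
  have hnw : NonWand F z := by
    rcases hzF with h1 | h1
    · exact h1
    · exact nonWand_of_isRec F.toHomeomorph _ h1
  exact circle_closing hr h F hF hz hnw hW hzW

end Pool.Agent.Results.MP_1e8d1a_an.NeutralCircle
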