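import Pool.Agent.H247.SC.Stm

/-!
# The local `C^r` closing lemma holds for `f × id_K`, `dim K ≥ 2`, in the strong topology

`V n = ℝⁿ`, `DiffM n N r = Diff^r(N)`, `strongTop n N r` is its strong (Whitney) `C^r` topology,
`IsRec F z`: `z` is recurrent, i.e. `m ↦ F^m z` is not a homeomorphism of `ℤ` onto its image, `IsPer G z`:
`z` is periodic for `G` (`Pool.Graph.R_seed8.H718R2.G0`). `NonWand F z`: `z` is a nonwandering point of
`F` (`Pool.Graph.R_seed8.W564.SC.Defs`). `ProdDiffeo m k n M K N`: smooth diffeomorphisms
`Θ : M × K → N` (`Pool.Graph.R_seed8.Y271.CP.Defs`). `TimesId Θ F`: `F (Θ (x, y)) = Θ (f x, y)` for some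
`f : M → M`; `LocallyClosable n N r F z`: for every neighbourhood `W` of `z`, every neighbourhood of `F`
in `Diff^r(N)` with the strong topology contains some `G` for which `z` is periodic and which is equal
to `F` outside of `W` and `F⁻¹(W)` (`Pool.Agent.H247.SC.Stm`).

No manifold is assumed to be compact. On every noncompact manifold of dimension `≥ 3` the closing lemma
fails in the strong topology for some `f` (library, `ClosingNoncompact`); two additional neutral
dimensions restore it, with perturbations supported near one point.

Idea of the proof: the point `z = (x, y)` lies on a small circle `{x} × C` which is moved by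
`F = f × id` without distortion. We compose `F` with the time-`χ` map of a field on the circles, where
`χ` is a cut-off function with support near `{x} × C` and the flow of the field consists of elliptic
Moebius maps of period equal to the total time `S` which the orbit of `x` spends in the support of `χ`
up to the return; then only at the end of the orbit the point is again close to `z`. If `S` is bounded
for the available returns, then there are few intermediate returns and one of them can be closed
directly.
-/

set_option autoImplicit false

open scoped Manifold ContDiff Topology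

namespace Pool.Agent.Results.MP_1e8d1a_an.TwoNeutralDimensions

open Pool.Agent.H718R2.G Pool.Agent.W564.SC Pool.Agent.H247.SC
open Pool.Agent.Y271.CP (ProdDiffeo)

/-- Let `M`, `K`, `N` be arbitrary smooth manifolds (compact or not), `dim K ≥ 2`, `Θ : M × K → N` a
diffeomorphism, `1 ≤ r ≤ ∞`, and let `F ∈ Diff^r(N)` be of the form `f × id`, where `f` is an
ARBITRARY diffeomorphism of `M`. Then `F` satisfies the local `C^r` closing lemma in the strong topology
at every nonwandering point, and in particular at every recurrent point. -/
theorem result {m k n : ℕ} (hk : 2 ≤ k) {M : Type*} [TopologicalSpace M] [ChartedSpace (V m) M]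
    {K : Type*} [TopologicalSpace K] [ChartedSpace (V k) K] [IsManifold (𝓡 k) ∞ K]
    {N : Type*} [TopologicalSpace N] [T2Space N] [ChartedSpace (V n) N] [IsManifold (𝓡 n) ∞ N]
    (r : ℕ∞) (hr : 1 ≤ r) (Θ : ProdDiffeo m k n M K N)
    (F : DiffM n N r) (hF : TimesId Θ F) (z : N)
    (hz : NonWand F z ∨ IsRec F.toHomeomorph z) : LocallyClosable n N r F z :=
  two_neutral hk r hr Θ F hF z hz

end Pool.Agent.Results.MP_1e8d1a_an.TwoNeutralDimensions
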